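import Pool.Agent.LPI.Defs

/-!
[P] Few of the points `p i j` are in a plane unless a line meets many of the sets.
-/

set_option autoImplicit false

namespace Pool.Agent.LPI

open Finset

/-- An orthonormal basis of `ℝ³` starting with a given direction. -/
theorem exists_onb (a : E3) (ha : a ≠ 0) :
    ∃ e : OrthonormalBasis (Fin 3) ℝ E3, e 0 = ‖a‖⁻¹ • a := by
  have hn : ‖a‖ ≠ 0 := norm_ne_zero_iff.2 ha
  have h1 : Orthonormal ℝ (({0} : Set (Fin 3)).domRestrict fun _ => ‖a‖⁻¹ • a) := by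
    rw [orthonormal_iff_ite]
    rintro ⟨i, hi⟩ ⟨j, hj⟩
    have hi' : i = 0 := hi
    have hj' : j = 0 := hj
    subst hi' hj'
    rw [if_pos rfl]
    change inner ℝ (‖a‖⁻¹ • a) (‖a‖⁻¹ • a) = 1
    rw [real_inner_self_eq_norm_sq, norm_smul, norm_inv, norm_norm, inv_mul_cancel₀ hn]
    norm_num
  obtain ⟨e, he⟩ := h1.exists_orthonormalBasis_extension_of_card_eq
    (by simp)
  exact ⟨e, he 0 rfl⟩

theorem plane_bound {n : ℕ} (A : Fin n → Set E3) (hconv : ∀ i, Convex ℝ (A i))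
    (p : Fin n → Fin n → E3) (hp : ∀ i j, p i j ∈ A i) (hsym : ∀ i j, p i j = p j i)
    (c : ℝ) (hc : ∀ x d : E3, d ≠ 0 → (hit A x d : ℝ) < c * n) (a : E3) (ha : a ≠ 0) (b : ℝ) :
    (Nat.card {ij : Fin n × Fin n // inner ℝ a (p ij.1 ij.2) = b} : ℝ) ≤ 2 * c * n ^ 2 := by
  classical
  obtain ⟨e, he⟩ := exists_onb a ha
  have hn0 : ‖a‖ ≠ 0 := norm_ne_zero_iff.2 ha
  obtain ⟨t, ht⟩ : ∃ t : Fin n → Fin n → ℝ, ∀ i j, t i j = inner ℝ (e 1) (p i j) :=
    ⟨_, fun _ _ => rfl⟩
  obtain ⟨G, hG⟩ : ∃ G : Fin n → Fin n → Prop, ∀ i j, G i j ↔ inner ℝ a (p i j) = b :=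
    ⟨fun i j => inner ℝ a (p i j) = b, fun _ _ => Iff.rfl⟩
  have hGs : ∀ i j, G i j → G j i := fun i j h => by
    rw [hG] at h ⊢
    rwa [hsym j i]
  have hts : ∀ i j, t i j = t j i := fun i j => by rw [ht, ht, hsym]
  have hmin : ∀ i, ∃ j0, (∃ j, G i j) → G i j0 ∧ ∀ j, G i j → t i j0 ≤ t i j := by
    intro i
    by_cases h : ∃ j, G i j
    · obtain ⟨j, hj⟩ := h
      obtain ⟨j0, h0, h1⟩ := Finset.exists_min_image (univ.filter fun j => G i j) (t i)
        ⟨j, by simpa using hj⟩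
      exact ⟨j0, fun _ => ⟨by simpa using h0, fun j hj => h1 j (by simpa using hj)⟩⟩
    · exact ⟨i, fun h' => absurd h' h⟩
  choose j0 hj0 using hmin
  obtain ⟨S, hS⟩ : ∃ S : Fin n → Finset (Fin n), ∀ i j, j ∈ S i ↔ (∃ k, G i k) ∧
      ∃ j1 j2, G j j1 ∧ G j j2 ∧ t j j1 ≤ t i (j0 i) ∧ t i (j0 i) ≤ t j j2 :=
    ⟨fun i => univ.filter fun j => (∃ k, G i k) ∧
      ∃ j1 j2, G j j1 ∧ G j j2 ∧ t j j1 ≤ t i (j0 i) ∧ t i (j0 i) ≤ t j j2, fun i j => by simp⟩
  have he2 : e 2 ≠ 0 := e.orthonormal.ne_zero 2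
  -- each `S i` is hit by a line
  have hSc : ∀ i, ((S i).card : ℝ) ≤ c * n := by
    intro i
    refine le_trans ?_ (hc (p i (j0 i)) (e 2) he2).le
    by_cases hi : ∃ k, G i k
    · have h0 := (hj0 i hi).1
      have hsub : ∀ j ∈ S i, ∃ s : ℝ, p i (j0 i) + s • e 2 ∈ A j := by
        intro j hj
        obtain ⟨-, j1, j2, h1, h2, h3, h4⟩ := (hS i j).1 hj
        obtain ⟨α, β, hα, hβ, hαβ, hval⟩ : ∃ α β : ℝ, 0 ≤ α ∧ 0 ≤ β ∧ α + β = 1 ∧
            α * t j j1 + β * t j j2 = t i (j0 i) := by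
          have hm : t i (j0 i) ∈ Set.Icc (t j j1) (t j j2) := ⟨h3, h4⟩
          rw [← segment_eq_Icc (h3.trans h4)] at hm
          obtain ⟨α, β, h5, h6, h7, h8⟩ := hm
          exact ⟨α, β, h5, h6, h7, by simpa using h8⟩
        have hy : α • p j j1 + β • p j j2 ∈ A j := hconv j (hp j j1) (hp j j2) hα hβ hαβ
        refine ⟨inner ℝ (e 2) (α • p j j1 + β • p j j2 - p i (j0 i)), ?_⟩
        have e0 : inner ℝ (e 0) (α • p j j1 + β • p j j2 - p i (j0 i)) = 0 := by
          rw [he, real_inner_smul_left, inner_sub_right, inner_add_right, real_inner_smul_right,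
            real_inner_smul_right, (hG _ _).1 h1, (hG _ _).1 h2, (hG _ _).1 h0, ← add_mul, hαβ]
          ring
        have e1 : inner ℝ (e 1) (α • p j j1 + β • p j j2 - p i (j0 i)) = 0 := by
          rw [inner_sub_right, inner_add_right, real_inner_smul_right,
            real_inner_smul_right, ← ht, ← ht, ← ht, hval]
          ring
        have hrep := e.sum_repr' (α • p j j1 + β • p j j2 - p i (j0 i))
        rw [Fin.sum_univ_three, e0, e1, zero_smul, zero_smul, zero_add, zero_add] at hrep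
        rw [hrep]
        simpa using hy
      unfold hit
      rw [Nat.card_eq_fintype_card, Fintype.card_subtype]
      exact_mod_cast Finset.card_le_card fun j hj => by
        simpa using hsub j hj
    · have : S i = ∅ := by
        ext j
        simp only [notMem_empty, iff_false]
        intro hj
        exact hi ((hS i j).1 hj).1
      rw [this]
      simp
  have hcov : ∀ i j, G i j → j ∈ S i ∨ i ∈ S j := by
    intro i j hij
    have hji := hGs i j hij
    have hi := hj0 i ⟨j, hij⟩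
    have hj := hj0 j ⟨i, hji⟩
    rcases le_total (t j (j0 j)) (t i (j0 i)) with h | h
    · left
      refine (hS i j).2 ⟨⟨j, hij⟩, j0 j, i, hj.1, hji, h, ?_⟩
      rw [← hts i j]
      exact hi.2 j hij
    · right
      refine (hS j i).2 ⟨⟨i, hji⟩, j0 i, j, hi.1, hij, h, ?_⟩
      rw [hts i j]
      exact hj.2 i hji
  have hcard : (Nat.card {ij : Fin n × Fin n // inner ℝ a (p ij.1 ij.2) = b}) ≤
      ∑ i, (S i).card + ∑ i, (S i).card := by
    rw [Nat.card_eq_fintype_card, Fintype.card_subtype]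
    have h1 : (univ.filter fun ij : Fin n × Fin n => inner ℝ a (p ij.1 ij.2) = b) ⊆
        (univ.filter fun ij : Fin n × Fin n => ij.2 ∈ S ij.1) ∪
          (univ.filter fun ij : Fin n × Fin n => ij.1 ∈ S ij.2) := by
      intro ij hij
      rw [mem_union, mem_filter, mem_filter]
      have := hcov ij.1 ij.2 ((hG _ _).2 (by simpa using hij))
      simpa using this
    refine (card_le_card h1).trans ((card_union_le _ _).trans (le_of_eq ?_))
    congr 1
    · rw [card_filter, Fintype.sum_prod_type]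
      refine sum_congr rfl fun i _ => ?_
      simp
    · rw [card_filter, Fintype.sum_prod_type_right]
      refine sum_congr rfl fun i _ => ?_
      simp
  have hsum : ((∑ i, (S i).card : ℕ) : ℝ) ≤ n * (c * n) := by
    push_cast
    calc ∑ i, ((S i).card : ℝ) ≤ ∑ _i : Fin n, c * n := sum_le_sum fun i _ => hSc i
      _ = n * (c * n) := by simp
  calc (Nat.card {ij : Fin n × Fin n // inner ℝ a (p ij.1 ij.2) = b} : ℝ)
      ≤ ((∑ i, (S i).card + ∑ i, (S i).card : ℕ) : ℝ) := by exact_mod_cast hcard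
    _ = ((∑ i, (S i).card : ℕ) : ℝ) + ((∑ i, (S i).card : ℕ) : ℝ) := by push_cast; ring
    _ ≤ n * (c * n) + n * (c * n) := add_le_add hsum hsum
    _ = 2 * c * n ^ 2 := by ring

end Pool.Agent.LPI
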