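import Pool.Agent.LPI.Defs

set_option autoImplicit false

/-! Row C: a finite net of planes meets some cone of every isotropic array. -/

namespace Pool.Agent.LPI

open scoped Topology

noncomputable section

/-- The matrix with columns `x, y, z, -w`. -/
def rowC_M (x y z w : E4) : Matrix (Fin 4) (Fin 4) ℝ :=
  Matrix.of fun i j => ![x i, y i, z i, -w i] j

theorem rowC_mulVec (x y z w : E4) (c : Fin 4 → ℝ) (i : Fin 4) :
    (rowC_M x y z w).mulVec c i = c 0 * x i + c 1 * y i + c 2 * z i - c 3 * w i := by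
  simp only [rowC_M, Matrix.mulVec, dotProduct, Matrix.of_apply, Fin.sum_univ_four]
  simp [Matrix.cons_val_zero, Matrix.cons_val_one]
  ring

theorem rowC_vec (x y z w s : E4) (c : Fin 4 → ℝ)
    (h : (rowC_M x y z w).mulVec c = fun i => s i) :
    c 0 • x + c 1 • y + c 2 • z = s + c 3 • w := by
  ext i
  have h1 := congrFun h i
  rw [rowC_mulVec] at h1
  simp only [PiLp.add_apply, PiLp.smul_apply, smul_eq_mul]
  linarith

theorem rowC_det (x y z : E4) (h : LinearIndependent ℝ ![x, y, z]) :
    ∃ w : E4, (rowC_M x y z w).det ≠ 0 := by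
  have hspan : ∃ w : E4, w ∉ Submodule.span ℝ (Set.range ![x, y, z]) := by
    by_contra hc
    push Not at hc
    have htop : Submodule.span ℝ (Set.range ![x, y, z]) = ⊤ := by
      rw [eq_top_iff]
      intro w _
      exact hc w
    have h1 : Module.finrank ℝ (Submodule.span ℝ (Set.range ![x, y, z])) = 3 := by
      rw [finrank_span_eq_card h, Fintype.card_fin]
    rw [htop, finrank_top, finrank_euclideanSpace, Fintype.card_fin] at h1
    omega
  obtain ⟨w, hw⟩ := hspan
  refine ⟨w, fun hdet => ?_⟩
  obtain ⟨c, hc0, hc⟩ := Matrix.exists_mulVec_eq_zero_iff.2 hdet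
  have hv : c 0 • x + c 1 • y + c 2 • z = (0 : E4) + c 3 • w := by
    apply rowC_vec
    rw [hc]
    funext i
    simp
  rw [zero_add] at hv
  have hmem : c 0 • x + c 1 • y + c 2 • z ∈ Submodule.span ℝ (Set.range ![x, y, z]) := by
    have hx : x ∈ Submodule.span ℝ (Set.range ![x, y, z]) :=
      Submodule.subset_span ⟨0, rfl⟩
    have hy : y ∈ Submodule.span ℝ (Set.range ![x, y, z]) :=
      Submodule.subset_span ⟨1, rfl⟩
    have hz : z ∈ Submodule.span ℝ (Set.range ![x, y, z]) :=
      Submodule.subset_span ⟨2, rfl⟩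
    exact Submodule.add_mem _ (Submodule.add_mem _ (Submodule.smul_mem _ _ hx)
      (Submodule.smul_mem _ _ hy)) (Submodule.smul_mem _ _ hz)
  have h3 : c 3 = 0 := by
    by_contra h3
    apply hw
    have : w = (c 3)⁻¹ • (c 0 • x + c 1 • y + c 2 • z) := by
      rw [hv, smul_smul, inv_mul_cancel₀ h3, one_smul]
    rw [this]
    exact Submodule.smul_mem _ _ hmem
  rw [h3, zero_smul] at hv
  rw [Fintype.linearIndependent_iff] at h
  have h4 := h ![c 0, c 1, c 2] (by
    rw [Fin.sum_univ_three]
    simpa using hv)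
  apply hc0
  funext i
  fin_cases i
  · exact h4 0
  · exact h4 1
  · exact h4 2
  · exact h3

theorem rowC_closed (r : ℕ) : IsClosed {u : Fin r → Fin r → E4 | IsoArray r u} := by
  unfold IsoArray
  simp only [Set.ofPred_and, Set.ofPred_forall]
  refine IsClosed.inter ?_ (IsClosed.inter ?_ ?_)
  · refine isClosed_iInter fun a => isClosed_iInter fun b => ?_
    exact isClosed_eq (by fun_prop) continuous_const
  · refine isClosed_iInter fun a => isClosed_iInter fun b => ?_
    exact isClosed_eq (by fun_prop) (by fun_prop)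
  · refine isClosed_iInter fun ν => isClosed_iInter fun _ => ?_
    refine isClosed_le ?_ continuous_const
    refine continuous_abs.comp (Continuous.sub ?_ continuous_const)
    refine continuous_finsetSum _ fun a _ => continuous_finsetSum _ fun b _ => ?_
    by_cases hab : a = b
    · simp only [hab, if_true]
      exact continuous_const
    · simp only [hab, if_false]
      fun_prop

theorem rowC_compact (r : ℕ) : IsCompact {u : Fin r → Fin r → E4 | IsoArray r u} := by
  refine Metric.isCompact_of_isClosed_isBounded (rowC_closed r) ?_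
  refine (Metric.isBounded_closedBall (x := (0 : Fin r → Fin r → E4)) (r := 1)).subset ?_
  intro u hu
  rw [mem_closedBall_zero_iff]
  rw [pi_norm_le_iff_of_nonneg zero_le_one]
  intro a
  rw [pi_norm_le_iff_of_nonneg zero_le_one]
  intro b
  exact (hu.1 a b).le

theorem rowC_nhds {r : ℕ} (u : Fin r → Fin r → E4) (a b c d : Fin r) (w : E4)
    (hdet : (rowC_M (u a b) (u a c) (u a d) w).det ≠ 0) :
    {u' : Fin r → Fin r → E4 | ∃ (α β γ ω : ℝ), 0 < α ∧ 0 < β ∧ 0 < γ ∧
      α • u' a b + β • u' a c + γ • u' a d = (u a b + u a c + u a d) + ω • w} ∈ 𝓝 u := by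
  set M : (Fin r → Fin r → E4) → Matrix (Fin 4) (Fin 4) ℝ := fun u' =>
    rowC_M (u' a b) (u' a c) (u' a d) w with hM
  set s : Fin 4 → ℝ := fun i => (u a b + u a c + u a d) i with hs
  set f : (Fin r → Fin r → E4) → Fin 4 → ℝ := fun u' =>
    ((M u').det)⁻¹ • ((M u').adjugate).mulVec s with hf
  have hMc : Continuous M := by
    refine continuous_matrix fun i j => ?_
    simp only [hM, rowC_M, Matrix.of_apply]
    fin_cases j
    · show Continuous fun u' : Fin r → Fin r → E4 => u' a b i
      fun_prop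
    · show Continuous fun u' : Fin r → Fin r → E4 => u' a c i
      fun_prop
    · show Continuous fun u' : Fin r → Fin r → E4 => u' a d i
      fun_prop
    · show Continuous fun u' : Fin r → Fin r → E4 => -w i
      fun_prop
  have hfc : ContinuousAt f u := by
    have c1 : ContinuousAt (fun u' => ((M u').det)⁻¹) u :=
      ContinuousAt.inv₀ (hMc.matrix_det).continuousAt hdet
    have c2 : ContinuousAt (fun u' => ((M u').adjugate).mulVec s) u :=
      (Continuous.matrix_mulVec (hMc.matrix_adjugate) continuous_const).continuousAt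
    exact c1.smul c2
  have hfu : f u = ![1, 1, 1, 0] := by
    have h1 : (M u).mulVec ![1, 1, 1, 0] = s := by
      funext i
      simp only [hM]
      rw [rowC_mulVec]
      simp [hs]
    rw [hf]
    simp only
    rw [← h1, Matrix.mulVec_mulVec, Matrix.adjugate_mul, Matrix.smul_mulVec, Matrix.one_mulVec,
      smul_smul, inv_mul_cancel₀ hdet, one_smul]
  have hdetn : ∀ᶠ u' in 𝓝 u, (M u').det ≠ 0 :=
    (hMc.matrix_det).continuousAt.eventually_ne hdet
  have hpos : ∀ j : Fin 4, j ≠ 3 → ∀ᶠ u' in 𝓝 u, 0 < f u' j := by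
    intro j hj
    have h1 : ContinuousAt (fun u' => f u' j) u := (continuous_apply j).continuousAt.comp hfc
    refine h1.eventually (lt_mem_nhds ?_)
    show 0 < f u j
    rw [hfu]
    fin_cases j
    · simp
    · simp
    · simp
    · exact absurd rfl hj
  filter_upwards [hdetn, hpos 0 (by decide), hpos 1 (by decide), hpos 2 (by decide)]
    with u' h1 h2 h3 h4
  refine ⟨f u' 0, f u' 1, f u' 2, f u' 3, h2, h3, h4, ?_⟩
  apply rowC_vec
  show (M u').mulVec (f u') = s
  rw [hf]
  simp only
  rw [Matrix.mulVec_smul, Matrix.mulVec_mulVec, Matrix.mul_adjugate, Matrix.smul_mulVec,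
    Matrix.one_mulVec, smul_smul, inv_mul_cancel₀ h1, one_smul]

/-- [C] a finite net of planes meets some cone of every isotropic array. -/
theorem net_of (r : ℕ) (hrow : ∀ u : Fin r → Fin r → E4, IsoArray r u →
    ∃ a b c d : Fin r, LinearIndependent ℝ ![u a b, u a c, u a d]) :
    ∃ (N : ℕ) (S W : Fin N → E4), (∀ k, LinearIndependent ℝ ![S k, W k]) ∧
      ∀ u : Fin r → Fin r → E4, IsoArray r u →
        ∃ (k : Fin N) (a b c d : Fin r) (α β γ ω : ℝ), 0 < α ∧ 0 < β ∧ 0 < γ ∧
          α • u a b + β • u a c + γ • u a d = S k + ω • W k := by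
  have hch : ∀ u : Fin r → Fin r → E4, IsoArray r u → ∃ S W : E4,
      LinearIndependent ℝ ![S, W] ∧
      {u' : Fin r → Fin r → E4 | ∃ (a b c d : Fin r) (α β γ ω : ℝ), 0 < α ∧ 0 < β ∧ 0 < γ ∧
        α • u' a b + β • u' a c + γ • u' a d = S + ω • W} ∈ 𝓝 u := by
    intro u hu
    obtain ⟨a, b, c, d, h⟩ := hrow u hu
    obtain ⟨w, hw⟩ := rowC_det _ _ _ h
    refine ⟨u a b + u a c + u a d, w, ?_, ?_⟩
    · rw [LinearIndependent.pair_iff]
      intro s' t' hst
      by_contra hne
      apply hw
      apply Matrix.exists_mulVec_eq_zero_iff.1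
      refine ⟨![s', s', s', -t'], ?_, ?_⟩
      · intro h0
        apply hne
        have e0 := congrFun h0 0
        have e3 := congrFun h0 3
        simp at e0 e3
        exact ⟨e0, e3⟩
      · funext i
        rw [rowC_mulVec]
        have := congrArg (fun v : E4 => v i) hst
        simp only [PiLp.add_apply, PiLp.smul_apply, smul_eq_mul, PiLp.zero_apply] at this
        simp
        linarith
    · refine Filter.mem_of_superset (rowC_nhds u a b c d w hw) ?_
      rintro u' ⟨α, β, γ, ω, h1, h2, h3, h4⟩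
      exact ⟨a, b, c, d, α, β, γ, ω, h1, h2, h3, h4⟩
  choose! fS fW hfi hfn using hch
  obtain ⟨t, ht, hcov⟩ := (rowC_compact r).elim_nhds_subcover _ (fun u hu => hfn u hu)
  set e := t.equivFin with he
  refine ⟨t.card, fun k => fS (e.symm k).1, fun k => fW (e.symm k).1, ?_, ?_⟩
  · intro k
    exact hfi _ (ht _ (e.symm k).2)
  · intro u hu
    have hm := hcov hu
    rw [Set.mem_iUnion₂] at hm
    obtain ⟨u0, hu0, a, b, c, d, α, β, γ, ω, h1, h2, h3, h4⟩ := hm
    refine ⟨e ⟨u0, hu0⟩, a, b, c, d, α, β, γ, ω, h1, h2, h3, ?_⟩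
    simp only [Equiv.symm_apply_apply]
    exact h4

end

end Pool.Agent.LPI
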