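import Pool.Agent.LPI.Defs

/-! The trace of a plane of `ℝ⁴` on `{x₀ = 1}` lies in a line of `ℝ³`. -/

namespace Pool.Agent.LPI

noncomputable section

theorem trace_line_aux (s w : E4) (h : LinearIndependent ℝ ![s, w]) (hs : s 0 ≠ 0) :
    ∃ x d : E3, d ≠ 0 ∧ ∀ y : E3, lift y ∈ Submodule.span ℝ {s, w} → ∃ t : ℝ, y = x + t • d := by
  rw [LinearIndependent.pair_iff] at h
  refine ⟨!₂[s 1 / s 0, s 2 / s 0, s 3 / s 0],
    !₂[w 1 - w 0 / s 0 * s 1, w 2 - w 0 / s 0 * s 2, w 3 - w 0 / s 0 * s 3], ?_, ?_⟩
  · intro hd
    have h0 := congrArg (fun v : E3 => v 0) hd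
    have h1 := congrArg (fun v : E3 => v 1) hd
    have h2 := congrArg (fun v : E3 => v 2) hd
    simp at h0 h1 h2
    have h3 := (h (-(w 0 / s 0)) 1 ?_).2
    · exact one_ne_zero h3
    · ext i
      fin_cases i
      · simp
        field_simp
        ring
      · simp
        linarith
      · simp
        linarith
      · simp
        linarith
  · intro y hy
    obtain ⟨a, b, hab⟩ := Submodule.mem_span_pair.1 hy
    have h0 := congrArg (fun v : E4 => v 0) hab
    have h1 := congrArg (fun v : E4 => v 1) hab
    have h2 := congrArg (fun v : E4 => v 2) hab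
    have h3 := congrArg (fun v : E4 => v 3) hab
    simp [lift] at h0 h1 h2 h3
    refine ⟨b, ?_⟩
    have ha : a = (1 - b * w 0) / s 0 := by
      field_simp
      linarith
    ext i
    fin_cases i
    · simp
      rw [← h1, ha]
      field_simp
      ring
    · simp
      rw [← h2, ha]
      field_simp
      ring
    · simp
      rw [← h3, ha]
      field_simp
      ring

/-- [L] the trace of a plane of `ℝ⁴` on `{x₀ = 1}` lies in a line of `ℝ³`. -/
theorem trace_line (s w : E4) (h : LinearIndependent ℝ ![s, w]) :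
    ∃ x d : E3, d ≠ 0 ∧ ∀ y : E3, lift y ∈ Submodule.span ℝ {s, w} → ∃ t : ℝ, y = x + t • d := by
  by_cases hs : s 0 = 0
  · by_cases hw : w 0 = 0
    · refine ⟨0, EuclideanSpace.single 0 1, ?_, ?_⟩
      · intro h
        have := congrArg (fun v : E3 => v 0) h
        simp at this
      · intro y hy
        obtain ⟨a, b, hab⟩ := Submodule.mem_span_pair.1 hy
        have h0 := congrArg (fun v : E4 => v 0) hab
        simp [lift, hs, hw] at h0
    · have h' : LinearIndependent ℝ ![w, s] := by
        rw [LinearIndependent.pair_iff] at h ⊢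
        intro a b hab
        exact (h b a (by rw [add_comm]; exact hab)).symm
      obtain ⟨x, d, hd, hx⟩ := trace_line_aux w s h' hw
      refine ⟨x, d, hd, fun y hy => hx y ?_⟩
      rwa [Set.pair_comm]
  · exact trace_line_aux s w h hs

end

end Pool.Agent.LPI
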