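import Mathlib

/-! Lines meeting many sets of a pairwise intersecting convex family in `ℝ³`: common definitions. -/

namespace Pool.Agent.LPI

open scoped BigOperators

noncomputable section

/-- `ℝ³`. -/
abbrev E3 := EuclideanSpace ℝ (Fin 3)

/-- `ℝ⁴`. -/
abbrev E4 := EuclideanSpace ℝ (Fin 4)

/-- The vector `(1, x)` of `ℝ⁴`. -/
def lift (x : E3) : E4 := !₂[1, x 0, x 1, x 2]

/-- Number of the sets `A i` met by the line `{x + t d}`. -/
def hit {n : ℕ} (A : Fin n → Set E3) (x d : E3) : ℕ :=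
  Nat.card {i : Fin n // ∃ t : ℝ, x + t • d ∈ A i}

/-- The unit vector of `w`. -/
def unit (w : E4) : E4 := ‖w‖⁻¹ • w

/-- A symmetric `r × r` array of unit vectors of `ℝ⁴` whose off-diagonal entries are within
`1/100` of isotropic. -/
def IsoArray (r : ℕ) (u : Fin r → Fin r → E4) : Prop :=
  (∀ a b, ‖u a b‖ = 1) ∧ (∀ a b, u a b = u b a) ∧
    ∀ ν : E4, ‖ν‖ = 1 →
      |(∑ a, ∑ b, if a = b then (0 : ℝ) else (inner ℝ ν (u a b)) ^ 2) - (r * (r - 1) : ℝ) / 4|
        ≤ (r * (r - 1) : ℝ) / 100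

end

end Pool.Agent.LPI
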