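import Pool.Agent.LPI.Defs

/-! Approximate isotropic position. -/

namespace Pool.Agent.LPI

open scoped BigOperators

noncomputable section

/-- The map `x ↦ x + t ⟨ν, x⟩ ν`. -/
private def fb (ν : E4) (t : ℝ) : E4 →ₗ[ℝ] E4 :=
  LinearMap.transvection (t • (innerₛₗ ℝ ν : E4 →ₗ[ℝ] ℝ)) ν

private theorem fb_apply (ν : E4) (t : ℝ) (x : E4) : fb ν t x = x + (t * inner ℝ ν x) • ν := by
  simp [fb, LinearMap.transvection.apply]

private theorem fb_det {ν : E4} (hν : ‖ν‖ = 1) (t : ℝ) : LinearMap.det (fb ν t) = 1 + t := by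
  simp [fb, LinearMap.transvection.det, hν]

private theorem fb_norm {ν : E4} (hν : ‖ν‖ = 1) (t : ℝ) (x : E4) :
    ‖fb ν t x‖ ^ 2 = ‖x‖ ^ 2 + (2 * t + t ^ 2) * inner ℝ ν x ^ 2 := by
  rw [fb_apply, norm_add_sq_real, norm_smul, inner_smul_right, hν, real_inner_comm]
  rw [mul_pow, Real.norm_eq_abs, sq_abs]
  ring

private theorem fb_unit_sq (ν w : E4) (hw : w ≠ 0) :
    inner ℝ ν (unit w) ^ 2 = inner ℝ ν w ^ 2 / ‖w‖ ^ 2 := by
  have : ‖w‖ ≠ 0 := norm_ne_zero_iff.2 hw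
  unfold unit
  rw [inner_smul_right]
  field_simp

private theorem fb_log {ν : E4} (hν : ‖ν‖ = 1) {t : ℝ} (ht : -1 < t) {w : E4} (hw : w ≠ 0) :
    Real.log ‖fb ν t w‖ - Real.log ‖w‖ ≤ (t + t ^ 2 / 2) * inner ℝ ν (unit w) ^ 2 := by
  have hw0 : 0 < ‖w‖ := norm_pos_iff.2 hw
  have hne : fb ν t w ≠ 0 := by
    intro h
    have h1 := fb_norm hν t w
    rw [h, norm_zero] at h1
    have h2 : inner ℝ ν w ^ 2 ≤ ‖w‖ ^ 2 := by
      have := abs_real_inner_le_norm ν w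
      rw [hν, one_mul] at this
      exact sq_le_sq.2 (by rwa [abs_of_pos hw0])
    have h3 : 0 < ‖w‖ ^ 2 := by positivity
    have h4 : 0 < (1 + t) ^ 2 := by
      have : 0 < 1 + t := by linarith
      positivity
    have h5 : 0 ≤ inner ℝ ν w ^ 2 := sq_nonneg _
    rcases le_or_gt 0 (2 * t + t ^ 2) with h6 | h6
    · have := mul_nonneg h6 h5
      nlinarith
    · have : (2 * t + t ^ 2) * ‖w‖ ^ 2 ≤ (2 * t + t ^ 2) * inner ℝ ν w ^ 2 :=
        mul_le_mul_of_nonpos_left h2 h6.le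
      nlinarith [mul_pos h4 h3]
  have hf0 : 0 < ‖fb ν t w‖ := norm_pos_iff.2 hne
  have e1 : Real.log ‖fb ν t w‖ - Real.log ‖w‖ =
      (1 / 2) * Real.log (‖fb ν t w‖ ^ 2 / ‖w‖ ^ 2) := by
    rw [Real.log_div (by positivity) (by positivity), Real.log_pow, Real.log_pow]
    push_cast
    ring
  have e2 : Real.log (‖fb ν t w‖ ^ 2 / ‖w‖ ^ 2) ≤ ‖fb ν t w‖ ^ 2 / ‖w‖ ^ 2 - 1 :=
    Real.log_le_sub_one_of_pos (by positivity)
  have e3 : ‖fb ν t w‖ ^ 2 / ‖w‖ ^ 2 - 1 = (2 * t + t ^ 2) * inner ℝ ν (unit w) ^ 2 := by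
    rw [fb_norm hν, fb_unit_sq ν w hw]
    field_simp
    ring
  rw [e1]
  rw [e3] at e2
  linarith

private theorem fb_log_lower {t : ℝ} (h : -(1 / 2) ≤ t) : t - 2 * t ^ 2 ≤ Real.log (1 + t) := by
  have h1 : 0 < 1 + t := by linarith
  have h2 := Real.one_sub_inv_le_log_of_pos h1
  have h3 : t - 2 * t ^ 2 ≤ 1 - (1 + t)⁻¹ := by
    have : 1 - (1 + t)⁻¹ = t / (1 + t) := by field_simp; ring
    rw [this, le_div_iff₀ h1]
    nlinarith [sq_nonneg t, mul_nonneg (sq_nonneg t) (by linarith : 0 ≤ 1 + 2 * t)]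
  linarith

private theorem fb_hadamard (x : Fin 4 → E4) :
    |(EuclideanSpace.basisFun (Fin 4) ℝ).toBasis.det x| ≤ 24 * ∏ s, ‖x s‖ := by
  rw [Module.Basis.det_apply, Matrix.det_apply]
  refine (Finset.abs_sum_le_sum_abs _ _).trans ?_
  have h : ∀ σ : Equiv.Perm (Fin 4),
      |Equiv.Perm.sign σ • ∏ i, (EuclideanSpace.basisFun (Fin 4) ℝ).toBasis.toMatrix x (σ i) i| ≤
        ∏ s, ‖x s‖ := by
    intro σ
    have h1 : |Equiv.Perm.sign σ •
        ∏ i, (EuclideanSpace.basisFun (Fin 4) ℝ).toBasis.toMatrix x (σ i) i| =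
        ∏ i, |(EuclideanSpace.basisFun (Fin 4) ℝ).toBasis.toMatrix x (σ i) i| := by
      rcases Int.units_eq_one_or (Equiv.Perm.sign σ) with hs | hs
      · rw [hs, one_smul, Finset.abs_prod]
      · rw [hs, Units.neg_smul, one_smul, abs_neg, Finset.abs_prod]
    rw [h1]
    refine Finset.prod_le_prod (fun i _ => abs_nonneg _) fun i _ => ?_
    have h2 : (EuclideanSpace.basisFun (Fin 4) ℝ).toBasis.toMatrix x (σ i) i = x i (σ i) := by
      simp [Module.Basis.toMatrix_apply]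
    rw [h2, ← Real.norm_eq_abs]
    exact PiLp.norm_apply_le (x i) (σ i)
  refine (Finset.sum_le_sum fun σ _ => h σ).trans ?_
  rw [Finset.sum_const, Finset.card_univ, Fintype.card_perm, Fintype.card_fin, nsmul_eq_mul]
  have : ((Nat.factorial 4 : ℕ) : ℝ) = 24 := by norm_num [Nat.factorial]
  rw [this]

/-- The potential. -/
private def fbG {ι : Type} (v : ι → E4) (Q : Finset (Fin 4 → ι)) (T : E4 ≃ₗ[ℝ] E4) : ℝ :=
  ∑ B ∈ Q, (∑ s : Fin 4, Real.log ‖T (v (B s))‖ - Real.log |LinearMap.det (T : E4 →ₗ[ℝ] E4)|)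

private theorem fb_detT (T : E4 ≃ₗ[ℝ] E4) : LinearMap.det (T : E4 →ₗ[ℝ] E4) ≠ 0 :=
  (LinearEquiv.isUnit_det' T).ne_zero

private theorem fb_bdd {ι : Type} (v : ι → E4) (hv : ∀ i, v i ≠ 0) (Q : Finset (Fin 4 → ι))
    (hind : ∀ B ∈ Q, LinearIndependent ℝ (fun s => v (B s))) :
    BddBelow (Set.range (fbG v Q)) := by
  let b := (EuclideanSpace.basisFun (Fin 4) ℝ).toBasis
  refine ⟨∑ B ∈ Q, (Real.log |b.det fun s => v (B s)| - Real.log 24), ?_⟩
  rintro _ ⟨T, rfl⟩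
  refine Finset.sum_le_sum fun B hB => ?_
  have hD : b.det (fun s => v (B s)) ≠ 0 := by
    have h1 := hind B hB
    have h2 : Submodule.span ℝ (Set.range fun s => v (B s)) = ⊤ :=
      h1.span_eq_top_of_card_eq_finrank' (by simp)
    exact ((Module.Basis.is_basis_iff_det b).1 ⟨h1, h2⟩).ne_zero
  have hT := fb_detT T
  have hx : ∀ s, 0 < ‖T (v (B s))‖ := fun s =>
    norm_pos_iff.2 ((LinearEquiv.map_ne_zero_iff T).2 (hv _))
  have h3 : |LinearMap.det (T : E4 →ₗ[ℝ] E4)| * |b.det fun s => v (B s)| ≤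
      24 * ∏ s, ‖T (v (B s))‖ := by
    rw [← abs_mul]
    have h4 := Module.Basis.det_comp b (T : E4 →ₗ[ℝ] E4) (fun s => v (B s))
    have h5 := fb_hadamard (fun s => T (v (B s)))
    have h6 : (⇑(T : E4 →ₗ[ℝ] E4) ∘ fun s => v (B s)) = fun s => T (v (B s)) := rfl
    rw [h6] at h4
    rw [← h4]
    exact h5
  have h7 := Real.log_le_log (mul_pos (abs_pos.2 hT) (abs_pos.2 hD)) h3
  rw [Real.log_mul (abs_pos.2 hT).ne' (abs_pos.2 hD).ne',
    Real.log_mul (by norm_num) (Finset.prod_pos fun s _ => hx s).ne',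
    Real.log_prod (fun s _ => (hx s).ne')] at h7
  linarith

theorem frame (κ : ℝ) (hκ : 0 < κ) {ι : Type} [Fintype ι] (v : ι → E4) (hv : ∀ i, v i ≠ 0)
    (Q : Finset (Fin 4 → ι)) (hQ : Q.Nonempty)
    (hind : ∀ B ∈ Q, LinearIndependent ℝ (fun s => v (B s))) :
    ∃ T : E4 ≃ₗ[ℝ] E4, ∀ ν : E4, ‖ν‖ = 1 →
      |(∑ B ∈ Q, ∑ s : Fin 4, (inner ℝ ν (unit (T (v (B s))))) ^ 2) / (4 * Q.card) - 1 / 4| ≤
        κ := by
  have hq : (0 : ℝ) < Q.card := by exact_mod_cast hQ.card_pos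
  have hbdd := fb_bdd v hv Q hind
  obtain ⟨T, hT⟩ := exists_lt_of_ciInf_lt
    (show iInf (fbG v Q) < iInf (fbG v Q) + Q.card * κ ^ 2 by
      have : 0 < (Q.card : ℝ) * κ ^ 2 := by positivity
      linarith)
  refine ⟨T, fun ν hν => ?_⟩
  obtain ⟨f, hf⟩ : ∃ f : ℝ, f = ∑ B ∈ Q, ∑ s : Fin 4,
      (inner ℝ ν (unit (T (v (B s))))) ^ 2 := ⟨_, rfl⟩
  rw [← hf]
  have hTv : ∀ i, T (v i) ≠ 0 := fun i => (LinearEquiv.map_ne_zero_iff T).2 (hv i)
  have hf0 : 0 ≤ f := by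
    rw [hf]
    exact Finset.sum_nonneg fun B _ => Finset.sum_nonneg fun s _ => sq_nonneg _
  have hf1 : f ≤ 4 * Q.card := by
    rw [hf]
    calc _ ≤ ∑ B ∈ Q, ∑ s : Fin 4, (1 : ℝ) := by
          refine Finset.sum_le_sum fun B _ => Finset.sum_le_sum fun s _ => ?_
          rw [fb_unit_sq ν _ (hTv _)]
          have h1 : 0 < ‖T (v (B s))‖ := norm_pos_iff.2 (hTv _)
          rw [div_le_one (by positivity)]
          have := abs_real_inner_le_norm ν (T (v (B s)))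
          rw [hν, one_mul] at this
          exact sq_le_sq.2 (by rwa [abs_of_pos h1])
      _ = 4 * Q.card := by simp; ring
  -- the variation
  have key : ∀ t : ℝ, -(1 / 2) ≤ t →
      -(Q.card * κ ^ 2) ≤ (t + t ^ 2 / 2) * f - Q.card * Real.log (1 + t) := by
    intro t ht
    have ht1 : 0 < 1 + t := by linarith
    have hdet : LinearMap.det (fb ν t) ≠ 0 := by rw [fb_det hν]; exact ht1.ne'
    let S : E4 ≃ₗ[ℝ] E4 := LinearMap.equivOfDetNeZero (fb ν t) hdet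
    have hS : ∀ x, S x = fb ν t x := fun x => rfl
    have h1 : iInf (fbG v Q) ≤ fbG v Q (T.trans S) := ciInf_le hbdd _
    have h2 : fbG v Q (T.trans S) - fbG v Q T ≤
        (t + t ^ 2 / 2) * f - Q.card * Real.log (1 + t) := by
      have h3 : LinearMap.det ((T.trans S : E4 ≃ₗ[ℝ] E4) : E4 →ₗ[ℝ] E4) =
          (1 + t) * LinearMap.det (T : E4 →ₗ[ℝ] E4) := by
        have : ((T.trans S : E4 ≃ₗ[ℝ] E4) : E4 →ₗ[ℝ] E4) = fb ν t ∘ₗ (T : E4 →ₗ[ℝ] E4) := by
          ext x : 1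
          rfl
        rw [this, LinearMap.det_comp, fb_det hν]
      unfold fbG
      rw [← Finset.sum_sub_distrib, hf, Finset.mul_sum]
      have h4 : (Q.card : ℝ) * Real.log (1 + t) = ∑ B ∈ Q, Real.log (1 + t) := by
        rw [Finset.sum_const, nsmul_eq_mul]
      rw [h4, ← Finset.sum_sub_distrib]
      refine Finset.sum_le_sum fun B _ => ?_
      rw [h3, abs_mul, abs_of_pos ht1, Real.log_mul ht1.ne' (abs_pos.2 (fb_detT T)).ne',
        Finset.mul_sum]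
      have h5 : ∑ s : Fin 4, Real.log ‖(T.trans S) (v (B s))‖ - ∑ s : Fin 4, Real.log ‖T (v (B s))‖ ≤
          ∑ s : Fin 4, (t + t ^ 2 / 2) * inner ℝ ν (unit (T (v (B s)))) ^ 2 := by
        rw [← Finset.sum_sub_distrib]
        refine Finset.sum_le_sum fun s _ => ?_
        have : (T.trans S) (v (B s)) = fb ν t (T (v (B s))) := rfl
        rw [this]
        exact fb_log hν (by linarith) (hTv _)
      linarith
    linarith
  -- choose `t`
  have hfin : (f - Q.card) ^ 2 ≤ (4 * Q.card * κ) ^ 2 := by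
    have ht0 : -(1 / 2 : ℝ) ≤ -(f - Q.card) / (8 * Q.card) := by
      rw [le_div_iff₀ (by positivity)]
      linarith
    have h1 := key (-(f - Q.card) / (8 * Q.card)) ht0
    have h2 := fb_log_lower ht0
    obtain ⟨t, hte⟩ : ∃ t : ℝ, t = -(f - Q.card) / (8 * Q.card) := ⟨_, rfl⟩
    rw [← hte] at h1 h2
    have h3 : (Q.card : ℝ) * (t - 2 * t ^ 2) ≤ Q.card * Real.log (1 + t) :=
      mul_le_mul_of_nonneg_left h2 hq.le
    have h4 : t ^ 2 / 2 * f ≤ t ^ 2 / 2 * (4 * Q.card) :=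
      mul_le_mul_of_nonneg_left hf1 (by positivity)
    have h5 : -(Q.card * κ ^ 2) ≤ t * (f - Q.card) + 4 * Q.card * t ^ 2 := by nlinarith
    have h6 : t * (8 * Q.card) = -(f - Q.card) := by
      rw [hte]
      field_simp
    have h7 : t * (f - Q.card) + 4 * Q.card * t ^ 2 = -(4 * Q.card * t ^ 2) := by
      have : f - Q.card = -(t * (8 * Q.card)) := by linarith
      rw [this]
      ring
    rw [h7] at h5
    have h8 : (4 : ℝ) * t ^ 2 ≤ κ ^ 2 := by
      have : (Q.card : ℝ) * (4 * t ^ 2) ≤ Q.card * κ ^ 2 := by linarith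
      exact le_of_mul_le_mul_left this hq
    have h9 : (f - Q.card) ^ 2 = (8 * Q.card) ^ 2 * t ^ 2 := by
      have : f - Q.card = -(t * (8 * Q.card)) := by linarith
      rw [this]
      ring
    rw [h9]
    nlinarith [mul_le_mul_of_nonneg_left h8 (sq_nonneg (Q.card : ℝ))]
  have habs : |f - Q.card| ≤ 4 * Q.card * κ := abs_le_of_sq_le_sq hfin (by positivity)
  have e : f / (4 * Q.card) - 1 / 4 = (f - Q.card) / (4 * Q.card) := by
    field_simp
  rw [e, abs_div, abs_of_pos (show (0 : ℝ) < 4 * Q.card by positivity),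
    div_le_iff₀ (by positivity)]
  linarith

end

end Pool.Agent.LPI
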